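import Pool.Agent.H70.AB.Defs

/-!
# Words with several variable tracks: abstract one-step lemmas
-/

namespace Pool.Agent.H70.AB.G

/-- a symbol: a known letter, or an unknown letter which is at least d -/
inductive Sy where
  | kn : ℕ → Sy
  | lb : ℕ → Sy

/-- definite mismatch -/
def Mis : Sy → Sy → Prop
  | .kn x, .kn y => x ≠ y
  | .kn x, .lb d => x < d
  | .lb d, .kn y => y < d
  | .lb _, .lb _ => False

/-- least possible letter -/
def Sy.lo : Sy → ℕ
  | .kn x => x
  | .lb d => d

/-- σ describes x and is periodic from T on -/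
structure Sym (x : ℕ → ℕ) (σ : ℕ → Sy) (T P : ℕ) : Prop where
  kn : ∀ n a, σ n = .kn a → x n = a
  lb : ∀ n d, σ n = .lb d → d ≤ x n
  per : ∀ n, T ≤ n → σ (n + P) = σ n
  hP : 0 < P

/-- finite conditions for avoidance -/
structure Fin1 (σ : ℕ → Sy) (b g P D T M L : ℕ) : Prop where
  hb : 0 < b
  hg : 0 < g
  hL : L ≤ g * M
  hD : D ≤ T
  A1 : ∀ m, 0 < m → m < M → ∀ i, i < T + P → (P ∣ b * m → i < D) →
    ∃ j, j < g * m ∧ Mis (σ (i + j)) (σ (i + j + b * m))
  A2 : ∀ i, i < T + P → ∀ δ, 0 < δ → b * M ≤ δ →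
    (∀ j, j < L → ¬ Mis (σ (i + j)) (σ (i + j + δ))) → P ∣ δ
  A4 : ∀ m, M ≤ m → 0 < m → P ∣ b * m → ∀ i, i < D → ∃ j, j < g * m ∧ Mis (σ (i + j)) (σ (i + j + b * m))

/-- finite conditions for leastness, for positions from N0 on; from Ns on the windows start at r or later -/
structure FinB (σ : ℕ → Sy) (b g P T N2 N0 Ns r : ℕ) : Prop where
  hb : 0 < b
  hg : 0 < g
  hN : T ≤ N2
  hNs : Ns ≤ N2
  h0s : N0 ≤ Ns
  B1 : ∀ n, N0 ≤ n → n < N2 + P → ∀ c, c < (σ n).lo → ∃ m i, 0 < m ∧ i + (b + g) * m = n + 1 ∧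
    (N2 ≤ n → T ≤ i) ∧ (Ns ≤ n → r ≤ i) ∧
    (∀ j, j + 1 < g * m → ∃ y, σ (i + j) = .kn y ∧ σ (i + j + b * m) = .kn y) ∧
    σ (i + g * m - 1) = .kn c

/-- x is fed by y at the positions pos -/
structure Lay (x y : ℕ → ℕ) (q k : ℕ) (pos δ : ℕ → ℕ) : Prop where
  hq : 0 < q
  hk : 0 < k
  hpos : ∀ j, pos (j + q) = pos j + k
  hmono : StrictMono pos
  hx : ∀ j, x (pos j) = y j + δ j
  hδ : ∀ j, δ (j + q) = δ j

/-- letter c at position n is blocked by a window starting at r or later -/
def BlR (x : ℕ → ℕ) (b g r n c : ℕ) : Prop :=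
  ∃ m i, 0 < m ∧ r ≤ i ∧ i + (b + g) * m = n + 1 ∧
    (∀ j, j + 1 < g * m → x (i + j) = x (i + j + b * m)) ∧ x (i + g * m - 1) = c

variable {x y : ℕ → ℕ} {σ : ℕ → Sy} {b g P D T M L N2 N0 Ns r q k : ℕ} {pos δ : ℕ → ℕ}

theorem Sym.per_mul (h : Sym x σ T P) {n : ℕ} (hn : T ≤ n) (c : ℕ) : σ (n + P * c) = σ n := by
  induction c with
  | zero => simp
  | succ c ih =>
    have : n + P * (c + 1) = (n + P * c) + P := by ring
    rw [this, h.per _ (by omega), ih]

theorem Sym.mis_ne (h : Sym x σ T P) {n n' : ℕ} (hm : Mis (σ n) (σ n')) : x n ≠ x n' := by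
  rcases h1 : σ n with a | a <;> rcases h2 : σ n' with c | c <;> rw [h1, h2] at hm
  · have e1 := h.kn _ _ h1
    have e2 := h.kn _ _ h2
    simp only [Mis] at hm; omega
  · have e1 := h.kn _ _ h1
    have e2 := h.lb _ _ h2
    simp only [Mis] at hm; omega
  · have e1 := h.lb _ _ h1
    have e2 := h.kn _ _ h2
    simp only [Mis] at hm; omega
  · simp only [Mis] at hm

theorem Sym.reduce (h : Sym x σ T P) (i : ℕ) :
    ∃ i0, i0 < T + P ∧ (i < T → i0 = i) ∧ (T ≤ i → T ≤ i0) ∧ (∃ c, i = i0 + P * c) ∧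
      ∀ j, σ (i + j) = σ (i0 + j) := by
  have hP := h.hP
  by_cases hi : i < T + P
  · exact ⟨i, hi, fun _ => rfl, fun h => h, ⟨0, by simp⟩, fun _ => rfl⟩
  · have e1 : i = T + (i - T) % P + P * ((i - T) / P) := by
      have := Nat.mod_add_div (i - T) P
      omega
    refine ⟨T + (i - T) % P, ?_, ?_, ?_, ⟨(i - T) / P, e1⟩, ?_⟩
    · have := Nat.mod_lt (i - T) hP; omega
    · intro hh; omega
    · intro _; omega
    · intro j
      have : i + j = (T + (i - T) % P + j) + P * ((i - T) / P) := by omega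
      rw [this, h.per_mul (by omega)]

/-- a power in x has a period divisible by P and starts at D or later -/
theorem Sym.avoid1 (h : Sym x σ T P) (hF : Fin1 σ b g P D T M L) {m : ℕ} (hm : 0 < m) {i : ℕ}
    (hpow : ∀ j, j < g * m → x (i + j) = x (i + j + b * m)) : P ∣ b * m ∧ D ≤ i := by
  obtain ⟨i0, hi0, hi0e, -, -, hs⟩ := h.reduce i
  have hb := hF.hb
  have hg := hF.hg
  have hD := hF.hD
  have hsh : ∀ j, j < g * m → ¬ Mis (σ (i0 + j)) (σ (i0 + j + b * m)) := by
    intro j hj hmis
    refine h.mis_ne (n := i + j) (n' := i + j + b * m) ?_ (hpow j hj)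
    rw [hs j, show i + j + b * m = i + (j + b * m) by ring, hs (j + b * m)]
    rw [show i0 + (j + b * m) = i0 + j + b * m by ring]
    exact hmis
  by_cases hmM : m < M
  · have key : P ∣ b * m ∧ D ≤ i0 := by
      by_contra hcon
      have hc : P ∣ b * m → i0 < D := by
        intro hd
        by_contra h2
        exact hcon ⟨hd, by omega⟩
      obtain ⟨j, hj, hmis⟩ := hF.A1 m hm hmM i0 hi0 hc
      exact hsh j hj hmis
    refine ⟨key.1, ?_⟩
    by_contra h2
    have := hi0e (by omega)
    omega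
  · have hdvd : P ∣ b * m := by
      apply hF.A2 i0 hi0 (b * m) (Nat.mul_pos hb hm) (Nat.mul_le_mul_left _ (by omega))
      intro j hj hmis
      exact hsh j (lt_of_lt_of_le hj (le_trans hF.hL (Nat.mul_le_mul_left _ (by omega)))) hmis
    refine ⟨hdvd, ?_⟩
    by_contra h2
    have h3 := hi0e (by omega)
    obtain ⟨j, hj, hmis⟩ := hF.A4 m (by omega) hm hdvd i0 (by omega)
    exact hsh j hj hmis

theorem Sym.fin_blocked (h : Sym x σ T P) (hF : FinB σ b g P T N2 N0 Ns r) (n c : ℕ) (hn0 : N0 ≤ n)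
    (hc : c < (σ n).lo) :
    BlR x b g (if Ns ≤ n then r else 0) n c := by
  have hP := h.hP
  have hN := hF.hN
  have hNs := hF.hNs
  have h0s := hF.h0s
  have hg := hF.hg
  have key : ∃ n1 t, n1 < N2 + P ∧ n = n1 + P * t ∧ σ n = σ n1 ∧ (n < N2 + P → t = 0) ∧
      (¬ n < N2 + P → N2 ≤ n1) := by
    by_cases hn : n < N2 + P
    · exact ⟨n, 0, hn, by simp, rfl, fun _ => rfl, fun h => absurd hn h⟩
    · have e1 : n = N2 + (n - N2) % P + P * ((n - N2) / P) := by
        have := Nat.mod_add_div (n - N2) P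
        omega
      refine ⟨N2 + (n - N2) % P, (n - N2) / P, ?_, e1, ?_, fun h => absurd h hn, fun _ => by omega⟩
      · have := Nat.mod_lt (n - N2) hP; omega
      · conv_lhs => rw [e1]
        exact h.per_mul (by omega) _
  obtain ⟨n1, t, hn1, hnt, hsy, ht0, hN1⟩ := key
  rw [hsy] at hc
  have hn01 : N0 ≤ n1 := by
    by_cases hn : n < N2 + P
    · have h0 := ht0 hn
      subst h0
      simp only [mul_zero, add_zero] at hnt
      omega
    · have := hN1 hn; omega
  obtain ⟨m, i, hm, him, hTi, hri, hj, hl⟩ := hF.B1 n1 hn01 hn1 c hc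
  have hshift : ∀ z, i ≤ z → σ (z + P * t) = σ z := by
    intro z hz
    by_cases hn : n < N2 + P
    · rw [ht0 hn]; simp
    · have := hTi (hN1 hn)
      exact h.per_mul (by omega) _
  refine ⟨m, i + P * t, hm, ?_, by rw [hnt]; omega, ?_, ?_⟩
  · by_cases hns : Ns ≤ n
    · rw [if_pos hns]
      by_cases hn : n < N2 + P
      · have h0 := ht0 hn
        subst h0
        simp only [mul_zero, add_zero] at hnt ⊢
        exact hri (by omega)
      · have := hri (by have := hN1 hn; omega)
        omega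
    · rw [if_neg hns]; exact Nat.zero_le _
  · intro j hjm
    obtain ⟨z, hy1, hy2⟩ := hj j hjm
    have e1 : σ (i + P * t + j) = .kn z := by
      rw [show i + P * t + j = (i + j) + P * t by ring, hshift _ (by omega), hy1]
    have e2 : σ (i + P * t + j + b * m) = .kn z := by
      rw [show i + P * t + j + b * m = (i + j + b * m) + P * t by ring, hshift _ (by omega), hy2]
    rw [h.kn _ _ e1, h.kn _ _ e2]
  · have hgm : 1 ≤ g * m := Nat.mul_pos hg hm
    have e1 : σ (i + P * t + g * m - 1) = .kn c := by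
      rw [show i + P * t + g * m - 1 = (i + g * m - 1) + P * t by omega, hshift _ (by omega), hl]
    exact h.kn _ _ e1

theorem Lay.pos_mul (h : Lay x y q k pos δ) (j c : ℕ) : pos (j + q * c) = pos j + k * c := by
  induction c with
  | zero => simp
  | succ c ih =>
    have : j + q * (c + 1) = (j + q * c) + q := by ring
    rw [this, h.hpos, ih]; ring

theorem Lay.δ_mul (h : Lay x y q k pos δ) (j c : ℕ) : δ (j + q * c) = δ j := by
  induction c with
  | zero => simp
  | succ c ih =>
    have : j + q * (c + 1) = (j + q * c) + q := by ring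
    rw [this, h.hδ, ih]

/-- a power in x of period b k m' gives a power in y -/
theorem Lay.desub (h : Lay x y q k pos δ) (hD : pos (q - 1) < D + k) {i : ℕ} (hi : D ≤ i) {m' : ℕ}
    (hm' : 0 < m') (hg : 0 < g)
    (hpow : ∀ j, j < g * (k * m') → x (i + j) = x (i + j + b * (k * m'))) :
    ∃ j0, ∀ j, j < q * g * m' → y (j0 + j) = y (j0 + j + q * b * m') := by
  classical
  have hq := h.hq
  have hk := h.hk
  have hex : ∃ j, i ≤ pos j := ⟨i, h.hmono.id_le i⟩
  set j0 := Nat.find hex with hj0
  have h1 : i ≤ pos j0 := Nat.find_spec hex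
  have hgm : 0 < g * m' := Nat.mul_pos hg hm'
  have hup : ∀ j, j < q * g * m' → pos (j0 + j) < i + g * (k * m') := by
    intro j hj
    have e0 : g * (k * m') = k * (g * m') := by ring
    rcases Nat.eq_zero_or_pos j0 with h0 | h0
    · rw [h0, zero_add]
      have h2 : pos j ≤ pos ((q - 1) + q * (g * m' - 1)) := by
        apply h.hmono.monotone
        have h3 : q * (g * m' - 1) = q * (g * m') - q := by rw [Nat.mul_sub, mul_one]
        have h4 : q * 1 ≤ q * (g * m') := Nat.mul_le_mul_left _ hgm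
        have h5 : q * g * m' = q * (g * m') := by ring
        omega
      rw [h.pos_mul] at h2
      have h3 : k * (g * m' - 1) = k * (g * m') - k := by rw [Nat.mul_sub, mul_one]
      have h4 : k * 1 ≤ k * (g * m') := Nat.mul_le_mul_left _ hgm
      rw [e0]
      omega
    · have h2 : pos (j0 - 1) < i := by
        have := Nat.find_min hex (m := j0 - 1) (by omega)
        omega
      have h3 : pos (j0 + j) ≤ pos ((j0 - 1) + q * (g * m')) := by
        apply h.hmono.monotone
        have h5 : q * g * m' = q * (g * m') := by ring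
        omega
      rw [h.pos_mul] at h3
      rw [e0]
      omega
  refine ⟨j0, ?_⟩
  intro j hj
  have h2 := hup j hj
  have h3 : i ≤ pos (j0 + j) := le_trans h1 (h.hmono.monotone (by omega))
  have h4 := hpow (pos (j0 + j) - i) (by omega)
  rw [show i + (pos (j0 + j) - i) = pos (j0 + j) by omega] at h4
  have e1 : pos (j0 + j) + b * (k * m') = pos (j0 + j + q * (b * m')) := by
    rw [h.pos_mul]; ring
  rw [e1, h.hx, h.hx, h.δ_mul] at h4
  have e2 : q * b * m' = q * (b * m') := by ring
  rw [e2]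
  omega

/-- start of the image of a window starting at i -/
def stt (pos : ℕ → ℕ) (q k i : ℕ) : ℕ := if i = 0 then pos (q - 1) + 1 - k else pos (i - 1) + 1

/-- image of a blocked letter -/
theorem Lay.image (h : Lay x y q k pos δ) {E r' : ℕ} (hg : 0 < g)
    (hper : ∀ n, E ≤ n → (∀ j, n ≠ pos j) → ∀ c, x (n + P * c) = x n) (hPbk : P ∣ b * k)
    (hk1 : k ≤ pos (q - 1) + 1) {j c : ℕ} (hE : ∀ i, r ≤ i → i ≤ j → E ≤ stt pos q k i ∧ r' ≤ stt pos q k i)
    (hb : BlR y (q * b) (q * g) r j c) : BlR x b g r' (pos j) (c + δ j) := by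
  have hq := h.hq
  have hk := h.hk
  obtain ⟨m', i', hm', hri, him, hw, hl⟩ := hb
  have hgm : 0 < g * m' := Nat.mul_pos hg hm'
  have hqgm : 0 < q * (g * m') := Nat.mul_pos hq hgm
  have hi'j : i' ≤ j := by
    have : (q * b + q * g) * m' = q * (b * m') + q * (g * m') := by ring
    omega
  obtain ⟨hE1, hE2⟩ := hE i' hri hi'j
  have e0 : g * (k * m') = k * (g * m') := by ring
  have e1 : b * (k * m') = k * (b * m') := by ring
  have hkgm : k * 1 ≤ k * (g * m') := Nat.mul_le_mul_left _ hgm
  have hqg1 : q * 1 ≤ q * (g * m') := Nat.mul_le_mul_left _ hgm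
  -- position of the last letter of the first part
  have elast : stt pos q k i' + k * (g * m') = pos (i' + q * (g * m') - 1) + 1 := by
    unfold stt
    split
    · rename_i h0
      subst h0
      have : 0 + q * (g * m') - 1 = (q - 1) + q * (g * m' - 1) := by
        rw [Nat.mul_sub, mul_one]; omega
      rw [this, h.pos_mul, Nat.mul_sub, mul_one]
      omega
    · have : i' + q * (g * m') - 1 = (i' - 1) + q * (g * m') := by omega
      rw [this, h.pos_mul]
      omega
  have ej : j = i' + q * (g * m') - 1 + q * (b * m') := by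
    have : (q * b + q * g) * m' = q * (b * m') + q * (g * m') := by ring
    omega
  refine ⟨k * m', stt pos q k i', Nat.mul_pos hk hm', hE2, ?_, ?_, ?_⟩
  · have : (b + g) * (k * m') = k * (b * m') + k * (g * m') := by ring
    rw [this, ej, h.pos_mul]
    omega
  · intro t ht
    rw [e0] at ht
    rw [e1]
    by_cases hv : ∃ u, stt pos q k i' + t = pos u
    · obtain ⟨u, hu⟩ := hv
      have hui : i' ≤ u := by
        by_contra hcon
        push Not at hcon
        unfold stt at hu
        rw [if_neg (by omega)] at hu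
        have : pos u ≤ pos (i' - 1) := h.hmono.monotone (by omega)
        omega
      have hu2 : u < i' + q * (g * m') - 1 := by
        apply h.hmono.lt_iff_lt.mp
        omega
      rw [hu, ← h.pos_mul, h.hx, h.hx, h.δ_mul]
      have h2 := hw (u - i') (by rw [mul_assoc]; omega)
      rw [show i' + (u - i') = u by omega] at h2
      rw [h2, mul_assoc q b m']
    · push Not at hv
      obtain ⟨z, hz⟩ := hPbk
      have : k * (b * m') = P * (z * m') := by
        calc k * (b * m') = (b * k) * m' := by ring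
          _ = P * (z * m') := by rw [hz]; ring
      rw [this, hper _ (by omega) hv]
  · rw [e0, elast, Nat.add_sub_cancel, h.hx]
    have h2 : y (i' + q * (g * m') - 1) = c := by
      rw [← mul_assoc]; exact hl
    rw [h2]
    congr 1
    rw [ej, h.δ_mul]

end Pool.Agent.H70.AB.G
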