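import Pool.Agent.H70.AB.Sound

/-!
# Packed masks with two classes of unknown letters
-/

namespace Pool.Agent.H70.AB.G

/-- parameters and bit planes of the letters; WA, WB: positions of the unknown letters -/
structure Dat where
  b : ℕ
  g : ℕ
  P : ℕ
  T : ℕ
  D : ℕ
  R : ℕ
  B0 : ℕ
  B1 : ℕ
  B2 : ℕ
  WA : ℕ
  dA : ℕ
  WB : ℕ
  dB : ℕ

/-- positions below R of class A -/
def Dat.wa (A : Dat) : ℕ := Nat.land (ones A.R) A.WA

/-- positions below R of class B -/
def Dat.wb (A : Dat) : ℕ := Nat.land (ones A.R) A.WB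

/-- known positions -/
def Dat.KN (A : Dat) : ℕ := Nat.xor (ones A.R) (Nat.land (ones A.R) (Nat.lor A.WA A.WB))

/-- part of the mask KN on which the plane B has the value c -/
def Dat.pl (A : Dat) (B : ℕ) (c : Bool) : ℕ :=
  sel c (Nat.land A.KN B) (Nat.xor A.KN (Nat.land A.KN B))

/-- known positions with letter c0 + 2 c1 + 4 c2 -/
def Dat.eq3 (A : Dat) (c0 c1 c2 : Bool) : ℕ :=
  Nat.land (A.pl A.B0 c0) (Nat.land (A.pl A.B1 c1) (A.pl A.B2 c2))

/-- known positions with letter in the set p -/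
def Dat.un (A : Dat) (p : ℕ → Bool) : ℕ :=
  Nat.lor (sel (p (nat_lit 0)) (A.eq3 false false false) (nat_lit 0))
  (Nat.lor (sel (p (nat_lit 1)) (A.eq3 true false false) (nat_lit 0))
  (Nat.lor (sel (p (nat_lit 2)) (A.eq3 false true false) (nat_lit 0))
  (Nat.lor (sel (p (nat_lit 3)) (A.eq3 true true false) (nat_lit 0))
  (Nat.lor (sel (p (nat_lit 4)) (A.eq3 false false true) (nat_lit 0))
  (Nat.lor (sel (p (nat_lit 5)) (A.eq3 true false true) (nat_lit 0))
  (Nat.lor (sel (p (nat_lit 6)) (A.eq3 false true true) (nat_lit 0))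
  (sel (p (nat_lit 7)) (A.eq3 true true true) (nat_lit 0))))))))

/-- known positions with letter less than d -/
def Dat.LT (A : Dat) (d : ℕ) : ℕ := A.un (fun c => Nat.ble (Nat.succ c) d)

/-- letters differ (used at known positions only) -/
def Dat.X (A : Dat) (δ : ℕ) : ℕ :=
  Nat.lor (Nat.xor A.B0 (Nat.shiftRight A.B0 δ))
    (Nat.lor (Nat.xor A.B1 (Nat.shiftRight A.B1 δ)) (Nat.xor A.B2 (Nat.shiftRight A.B2 δ)))

/-- definite mismatches between n and n + δ -/
def Dat.mism (A : Dat) (δ : ℕ) : ℕ :=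
  Nat.lor (Nat.land (A.X δ) (Nat.land A.KN (Nat.shiftRight A.KN δ)))
    (Nat.lor (Nat.lor (Nat.land A.wa (Nat.shiftRight (A.LT A.dA) δ)) (Nat.land (Nat.shiftRight A.wa δ) (A.LT A.dA)))
      (Nat.lor (Nat.land A.wb (Nat.shiftRight (A.LT A.dB) δ)) (Nat.land (Nat.shiftRight A.wb δ) (A.LT A.dB))))

/-- all windows of length g m starting before T + P contain a mismatch for the shift b m;
if P divides b m: all windows starting before D -/
def Dat.chk (A : Dat) (m : ℕ) : Bool :=
  cover (spr (A.mism (Nat.mul A.b m)) (nat_lit 24) (Nat.mul A.g m))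
    (sel (Nat.beq (Nat.mod (Nat.mul A.b m) A.P) (nat_lit 0)) A.D (Nat.add A.T A.P))

/-- chk for all m in [lo, lo + cnt) -/
def Dat.chkR (A : Dat) (lo cnt : ℕ) : Bool :=
  Nat.rec (motive := fun _ => Bool) true (fun i ih => Bool.rec false ih (A.chk (Nat.add lo i))) cnt

/-- positions compatible with the known letter c -/
def Dat.Em (A : Dat) (c : ℕ) : ℕ :=
  Nat.lor (A.un (fun x => Nat.beq x c))
    (Nat.lor (sel (Nat.ble A.dA c) A.wa (nat_lit 0)) (sel (Nat.ble A.dB c) A.wb (nat_lit 0)))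

/-- candidates for the anchor with the offsets and letters in the list (entries 8 * offset + letter) -/
def Dat.cand (A : Dat) (Q : ℕ) (J : List ℕ) : ℕ :=
  List.rec (motive := fun _ => ℕ) Q
    (fun x _ ih => Nat.land ih (Nat.shiftRight (A.Em (Nat.mod x (nat_lit 8))) (Nat.div x (nat_lit 8)))) J

/-- the letters at p + offset are as in the list -/
def Dat.here (A : Dat) (p lim : ℕ) (J : List ℕ) : Bool :=
  List.rec (motive := fun _ => Bool) true
    (fun x _ ih => Bool.rec false (Bool.rec false ih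
      (Nat.ble (Nat.succ (Nat.add p (Nat.div x (nat_lit 8)))) lim))
      (Nat.beq (Nat.mod (Nat.shiftRight (A.un (fun y => Nat.beq y (Nat.mod x (nat_lit 8))))
        (Nat.add p (Nat.div x (nat_lit 8)))) (nat_lit 2)) (nat_lit 1))) J

/-- the candidates at positions at least low are at most the position p + P z -/
def Dat.uniq (A : Dat) (p z low Q : ℕ) : Bool :=
  Bool.rec (Bool.rec (Nat.beq (Nat.shiftRight Q low)
      (Nat.pow (nat_lit 2) (Nat.sub (Nat.add p (Nat.mul A.P z)) low)))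
      true (Nat.beq (Nat.shiftRight Q low) (nat_lit 0)))
    false (Nat.ble (Nat.succ (Nat.add p (Nat.mul A.P z))) low)

/-- one anchor -/
def Dat.anc (A : Dat) (M p z lim : ℕ) (J : List ℕ) : Bool :=
  Bool.rec false (A.uniq p z (Nat.min (Nat.add p (Nat.mul A.b M)) A.T)
    (A.cand (ones (Nat.add A.T A.P)) J)) (A.here p lim J)

/-- list of anchors covering the windows of length L starting in [lo, hi) -/
def Dat.ancs (A : Dat) (M L hi : ℕ) (l : List (ℕ × ℕ × List ℕ)) : ℕ → Bool :=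
  List.rec (motive := fun _ => ℕ → Bool) (fun lo => Nat.ble hi lo)
    (fun a _ ih lo => Bool.rec false (Bool.rec false (ih (Nat.succ a.1))
      (A.anc M a.1 a.2.1 (Nat.add lo L) a.2.2)) (Nat.ble lo a.1)) l

/-- strict equality mask for the shift δ -/
def Dat.SE (A : Dat) (δ : ℕ) : ℕ :=
  Nat.xor (Nat.land A.KN (Nat.shiftRight A.KN δ))
    (Nat.land (Nat.land A.KN (Nat.shiftRight A.KN δ)) (A.X δ))

/-- blocked positions for the letter x by the witness m, windows starting at r or later -/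
def Dat.blm (A : Dat) (r x m : ℕ) : ℕ :=
  Nat.shiftLeft (Nat.shiftLeft (Nat.shiftRight
    (Nat.land (sprA (ones A.R) (A.SE (Nat.mul A.b m)) (nat_lit 24) (Nat.sub (Nat.mul A.g m) (nat_lit 1)))
    (Nat.shiftRight (A.un (fun y => Nat.beq y x)) (Nat.sub (Nat.mul A.g m) (nat_lit 1)))) r) r)
    (Nat.sub (Nat.mul (Nat.add A.b A.g) m) (nat_lit 1))

/-- blocked positions for the letter x -/
def Dat.blx (A : Dat) (r x : ℕ) (W : List ℕ) : ℕ :=
  List.rec (motive := fun _ => ℕ) (nat_lit 0) (fun m _ ih => Nat.lor ih (A.blm r x m)) W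

/-- positions at which the letter x has to be blocked -/
def Dat.needx (A : Dat) (x : ℕ) : ℕ :=
  Nat.lor (A.un (fun y => Nat.ble (Nat.succ x) y))
    (Nat.lor (sel (Nat.ble (Nat.succ x) A.dA) A.wa (nat_lit 0)) (sel (Nat.ble (Nat.succ x) A.dB) A.wb (nat_lit 0)))

/-- all needs for x in [lo, hi) are satisfied -/
def Dat.okx (A : Dat) (lo hi r : ℕ) (W : List ℕ) (x : ℕ) : Bool :=
  Nat.beq (Nat.land (A.blx r x W) (Nat.land (A.needx x) (Nat.shiftLeft (ones (Nat.sub hi lo)) lo)))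
    (Nat.land (A.needx x) (Nat.shiftLeft (ones (Nat.sub hi lo)) lo))

/-- leastness check -/
def Dat.lea (A : Dat) (lo hi r : ℕ) (W : List ℕ) : Bool :=
  (A.okx lo hi r W (nat_lit 0)) && (A.okx lo hi r W (nat_lit 1)) && (A.okx lo hi r W (nat_lit 2)) &&
  (A.okx lo hi r W (nat_lit 3)) && (A.okx lo hi r W (nat_lit 4)) && (A.okx lo hi r W (nat_lit 5)) &&
  (A.okx lo hi r W (nat_lit 6))

/-- periodicity of a plane -/
def Dat.perB (A : Dat) (B : ℕ) : Bool :=
  Nat.beq (Nat.shiftRight B (Nat.add A.T A.P))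
    (Nat.mod (Nat.shiftRight B A.T) (Nat.pow (nat_lit 2) (Nat.sub A.R (Nat.add A.T A.P))))

/-- numerical conditions -/
def Dat.numOK (A : Dat) : Bool :=
  (Nat.ble (nat_lit 1) A.b) && (Nat.ble (nat_lit 1) A.g) &&
  (Nat.ble (nat_lit 1) A.P) && (Nat.ble A.D A.T) &&
  (Nat.ble (Nat.add A.T A.P) A.R) && (Nat.ble A.dA (nat_lit 7)) && (Nat.ble A.dB (nat_lit 7)) &&
  (Nat.beq (Nat.land A.WA A.WB) (nat_lit 0)) &&
  (A.perB A.B0) && (A.perB A.B1) && (A.perB A.B2) && (A.perB A.WA) && (A.perB A.WB)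

/-- deviation check: for the shift P J0, windows of length L starting before D contain a mismatch -/
def Dat.devchk (A : Dat) (L J0 : ℕ) : Bool :=
  cover (spr (A.mism (Nat.mul A.P J0)) (nat_lit 24) L) A.D

/-- more numerical conditions; minm: lower bound for the m of at least M with P dividing b m -/
def Dat.numOK2 (A : Dat) (M L J0 : ℕ) : Bool :=
  (Nat.ble L (Nat.mul A.g M)) && (Nat.ble (nat_lit 1) M) && (Nat.ble A.T (Nat.mul A.P J0)) &&
  (Nat.ble (Nat.add A.T (Nat.add A.P L)) A.R) &&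
  ((Nat.ble A.T (Nat.mul A.b M)) || (Nat.ble A.T (Nat.mul A.b (Nat.div A.P (Nat.gcd A.P A.b)))))

/-- conditions for the leastness part -/
def Dat.numOK3 (A : Dat) (N2 Ns mx : ℕ) : Bool :=
  (Nat.ble (Nat.add N2 A.P) A.R) && (Nat.ble (Nat.add A.T (Nat.mul (Nat.add A.b A.g) mx)) (Nat.succ N2)) &&
  (Nat.ble A.T N2) && (Nat.ble Ns N2)

/-- the unknown letters of the plane W: exactly the position T + off modulo P, nothing below T -/
def Dat.one (A : Dat) (W off : ℕ) : Bool :=
  (Nat.beq (Nat.mod W (Nat.pow (nat_lit 2) A.T)) (nat_lit 0)) &&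
  (Nat.beq (Nat.mod (Nat.shiftRight W A.T) (Nat.pow (nat_lit 2) A.P)) (Nat.pow (nat_lit 2) off))

/-- letters in [E, T) differ from those P later at most at the positions of VM -/
def Dat.perC (A : Dat) (E VM : ℕ) : Bool :=
  Nat.beq (Nat.land VM (Nat.land (A.X A.P) (Nat.shiftLeft (ones (Nat.sub A.T E)) E)))
    (Nat.land (A.X A.P) (Nat.shiftLeft (ones (Nat.sub A.T E)) E))

end Pool.Agent.H70.AB.G
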