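import Pool.Agent.H70.AB.G.Mask
import Pool.Agent.H70.AB.G.Core

/-!
# Soundness of the masks, two classes
-/

namespace Pool.Agent.H70.AB.G

/-- the letter given by the planes -/
def Dat.letter (A : Dat) (n : ℕ) : ℕ :=
  (A.B0.testBit n).toNat + 2 * (A.B1.testBit n).toNat + 4 * (A.B2.testBit n).toNat

theorem Dat.letter_lt (A : Dat) (n : ℕ) : A.letter n < 8 := by
  unfold Dat.letter
  have h0 := Bool.toNat_le (A.B0.testBit n)
  have h1 := Bool.toNat_le (A.B1.testBit n)
  have h2 := Bool.toNat_le (A.B2.testBit n)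
  omega

/-- symbol of the masks at n -/
def Dat.raw (A : Dat) (n : ℕ) : Sy :=
  if A.WA.testBit n then .lb A.dA else if A.WB.testBit n then .lb A.dB else .kn (A.letter n)

/-- reduced position -/
def Dat.red (A : Dat) (n : ℕ) : ℕ := if n < A.T then n else A.T + (n - A.T) % A.P

/-- symbol at n -/
def Dat.σ (A : Dat) (n : ℕ) : Sy := A.raw (A.red n)

theorem Dat.wa_tb (A : Dat) (n : ℕ) : A.wa.testBit n = (decide (n < A.R) && A.WA.testBit n) := by
  unfold Dat.wa; rw [tb_land, tb_ones]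

theorem Dat.wb_tb (A : Dat) (n : ℕ) : A.wb.testBit n = (decide (n < A.R) && A.WB.testBit n) := by
  unfold Dat.wb; rw [tb_land, tb_ones]

theorem Dat.KN_tb (A : Dat) (n : ℕ) : A.KN.testBit n =
    (decide (n < A.R) && (!A.WA.testBit n && !A.WB.testBit n)) := by
  unfold Dat.KN
  rw [tb_xor, tb_land, tb_lor, tb_ones]
  cases decide (n < A.R) <;> cases A.WA.testBit n <;> cases A.WB.testBit n <;> rfl

theorem Dat.pl_tb (A : Dat) (B : ℕ) (c : Bool) (n : ℕ) :
    (A.pl B c).testBit n = (A.KN.testBit n && (B.testBit n == c)) := by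
  unfold Dat.pl
  rw [tb_sel, tb_xor, tb_land]
  cases c <;> cases A.KN.testBit n <;> cases B.testBit n <;> rfl

theorem Dat.eq3_tb (A : Dat) (c0 c1 c2 : Bool) (n : ℕ) :
    (A.eq3 c0 c1 c2).testBit n = (A.KN.testBit n && ((A.B0.testBit n == c0) && (A.B1.testBit n == c1) && (A.B2.testBit n == c2))) := by
  unfold Dat.eq3
  rw [tb_land, tb_land, A.pl_tb, A.pl_tb, A.pl_tb]
  cases A.KN.testBit n <;> simp [Bool.and_assoc]

theorem Dat.un_tb (A : Dat) (p : ℕ → Bool) (n : ℕ) :
    (A.un p).testBit n = (A.KN.testBit n && p (A.letter n)) := by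
  unfold Dat.un Dat.letter
  simp only [tb_lor, tb_sel, A.eq3_tb, Nat.zero_testBit]
  cases A.KN.testBit n <;> cases A.B0.testBit n <;> cases A.B1.testBit n <;> cases A.B2.testBit n <;>
    simp

theorem Dat.X_tb (A : Dat) (δ n : ℕ) : (A.X δ).testBit n = decide (A.letter n ≠ A.letter (n + δ)) := by
  unfold Dat.X Dat.letter
  simp only [tb_lor, tb_xor, tb_shr]
  rw [show δ + n = n + δ by ring]
  cases A.B0.testBit n <;> cases A.B1.testBit n <;> cases A.B2.testBit n <;>
    cases A.B0.testBit (n + δ) <;> cases A.B1.testBit (n + δ) <;> cases A.B2.testBit (n + δ) <;>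
    rfl

/-- the facts about the data which are used -/
structure Dat.OK (A : Dat) : Prop where
  hb : 1 ≤ A.b
  hg : 1 ≤ A.g
  hP : 1 ≤ A.P
  hD : A.D ≤ A.T
  hR : A.T + A.P ≤ A.R
  hdA : A.dA ≤ 7
  hdB : A.dB ≤ 7
  hdis : ∀ n, ¬ (A.WA.testBit n = true ∧ A.WB.testBit n = true)
  hper : ∀ n, A.T ≤ n → n + A.P < A.R → A.raw (n + A.P) = A.raw n

theorem perB_sound {A : Dat} {B : ℕ} (h : A.perB B = true) {n : ℕ} (hn : A.T ≤ n) (hR : n + A.P < A.R) :
    B.testBit (n + A.P) = B.testBit n := by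
  have h1 := beq_eq h
  have h2 := congrArg (fun z => Nat.testBit z (n - A.T)) h1
  simp only at h2
  rw [tb_shr, tb_mod, tb_shr] at h2
  have e1 : Nat.add A.T A.P + (n - A.T) = n + A.P := by
    change A.T + A.P + (n - A.T) = _
    omega
  have e2 : A.T + (n - A.T) = n := by omega
  have e3 : n - A.T < Nat.sub A.R (Nat.add A.T A.P) := by
    change n - A.T < A.R - (A.T + A.P)
    omega
  rw [e1, e2] at h2
  simp only [e3, decide_true, Bool.true_and] at h2
  exact h2

theorem numOK_sound {A : Dat} (h : A.numOK = true) : A.OK := by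
  unfold Dat.numOK at h
  simp only [Bool.and_eq_true] at h
  obtain ⟨⟨⟨⟨⟨⟨⟨⟨⟨⟨⟨⟨h1, h2⟩, h3⟩, h4⟩, h5⟩, h6⟩, h7⟩, h8⟩, p0⟩, p1⟩, p2⟩, p3⟩, p4⟩ := h
  refine ⟨Nat.le_of_ble_eq_true h1, Nat.le_of_ble_eq_true h2, Nat.le_of_ble_eq_true h3,
    Nat.le_of_ble_eq_true h4, Nat.le_of_ble_eq_true h5, Nat.le_of_ble_eq_true h6,
    Nat.le_of_ble_eq_true h7, ?_, ?_⟩
  · rintro n ⟨ha, hb⟩
    have h9 : (Nat.land A.WA A.WB).testBit n = (0 : ℕ).testBit n := by rw [beq_eq h8]
    rw [tb_land, ha, hb] at h9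
    simp at h9
  · intro n hn hR
    unfold Dat.raw Dat.letter
    rw [perB_sound p0 hn hR, perB_sound p1 hn hR, perB_sound p2 hn hR, perB_sound p3 hn hR,
      perB_sound p4 hn hR]

theorem Dat.OK.red_raw {A : Dat} (h : A.OK) : ∀ n, n < A.R → A.σ n = A.raw n := by
  intro n
  induction n using Nat.strong_induction_on with
  | _ n ih =>
  intro hR
  unfold Dat.σ Dat.red
  by_cases h1 : n < A.T
  · rw [if_pos h1]
  · rw [if_neg h1]
    by_cases hK : n < A.T + A.P
    · rw [Nat.mod_eq_of_lt (by omega)]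
      congr 1; omega
    · have hP := h.hP
      have h3 := ih (n - A.P) (by omega) (by omega)
      have h2 := h.hper (n - A.P) (by omega) (by omega)
      have e1 : n - A.P + A.P = n := by omega
      rw [e1] at h2
      rw [h2, ← h3]
      unfold Dat.σ Dat.red
      rw [if_neg (by omega)]
      have e2 : n - A.T = (n - A.P - A.T) + A.P := by omega
      rw [e2, Nat.add_mod_right]

theorem Dat.OK.σ_per {A : Dat} (_ : A.OK) {n : ℕ} (hn : A.T ≤ n) : A.σ (n + A.P) = A.σ n := by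
  unfold Dat.σ Dat.red
  rw [if_neg (by omega), if_neg (by omega)]
  have : n + A.P - A.T = n - A.T + A.P := by omega
  rw [this, Nat.add_mod_right]

theorem Dat.OK.s_KN {A : Dat} (h : A.OK) {n : ℕ} (hn : A.KN.testBit n = true) :
    A.σ n = .kn (A.letter n) ∧ n < A.R := by
  rw [A.KN_tb] at hn
  obtain ⟨h1, h2⟩ := Bool.and_eq_true_iff.mp hn
  obtain ⟨h3, h4⟩ := Bool.and_eq_true_iff.mp h2
  have hR := of_decide_eq_true h1
  refine ⟨?_, hR⟩
  rw [h.red_raw n hR]
  unfold Dat.raw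
  rw [if_neg (by simpa using h3), if_neg (by simpa using h4)]

theorem Dat.OK.s_wa {A : Dat} (h : A.OK) {n : ℕ} (hn : A.wa.testBit n = true) : A.σ n = .lb A.dA := by
  rw [A.wa_tb] at hn
  obtain ⟨h1, h2⟩ := Bool.and_eq_true_iff.mp hn
  rw [h.red_raw n (of_decide_eq_true h1)]
  unfold Dat.raw
  rw [if_pos h2]

theorem Dat.OK.s_wb {A : Dat} (h : A.OK) {n : ℕ} (hn : A.wb.testBit n = true) : A.σ n = .lb A.dB := by
  rw [A.wb_tb] at hn
  obtain ⟨h1, h2⟩ := Bool.and_eq_true_iff.mp hn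
  rw [h.red_raw n (of_decide_eq_true h1)]
  unfold Dat.raw
  rw [if_neg (fun hh => h.hdis n ⟨hh, h2⟩), if_pos h2]

/-- converse: the symbol determines the masks -/
theorem Dat.OK.cases {A : Dat} (h : A.OK) {n : ℕ} (hn : n < A.R) :
    (A.σ n = .kn (A.letter n) ∧ A.KN.testBit n = true) ∨ (A.σ n = .lb A.dA ∧ A.wa.testBit n = true) ∨
      (A.σ n = .lb A.dB ∧ A.wb.testBit n = true) := by
  rw [h.red_raw n hn]
  unfold Dat.raw
  rw [A.KN_tb, A.wa_tb, A.wb_tb]
  rcases ha : A.WA.testBit n with _ | _ <;> rcases hb : A.WB.testBit n with _ | _ <;> simp [hn]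

theorem Dat.LT_tb (A : Dat) (d n : ℕ) : (A.LT d).testBit n = (A.KN.testBit n && decide (A.letter n < d)) := by
  unfold Dat.LT
  rw [A.un_tb]
  congr 1
  rcases h : Nat.ble (Nat.succ (A.letter n)) d with _ | _
  · symm; rw [decide_eq_false_iff_not]
    intro hc
    have : Nat.ble (Nat.succ (A.letter n)) d = true := Nat.ble_eq_true_of_le hc
    rw [this] at h; simp at h
  · symm; rw [decide_eq_true_iff]
    exact Nat.le_of_ble_eq_true h

theorem Dat.OK.mism_tb {A : Dat} (h : A.OK) {δ n : ℕ} (hm : (A.mism δ).testBit n = true) :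
    Mis (A.σ n) (A.σ (n + δ)) := by
  unfold Dat.mism at hm
  simp only [tb_lor, tb_land, tb_shr, A.X_tb, A.LT_tb] at hm
  rw [show δ + n = n + δ by ring] at hm
  rcases Bool.or_eq_true_iff.mp hm with h1 | h1
  · obtain ⟨h2, h3⟩ := Bool.and_eq_true_iff.mp h1
    obtain ⟨h4, h5⟩ := Bool.and_eq_true_iff.mp h3
    rw [(h.s_KN h4).1, (h.s_KN h5).1]
    have h6 := of_decide_eq_true h2
    exact h6
  · rcases Bool.or_eq_true_iff.mp h1 with h2 | h2 <;> rcases Bool.or_eq_true_iff.mp h2 with h3 | h3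
    · obtain ⟨h4, h5⟩ := Bool.and_eq_true_iff.mp h3
      obtain ⟨h6, h7⟩ := Bool.and_eq_true_iff.mp h5
      rw [h.s_wa h4, (h.s_KN h6).1]
      have h8 := of_decide_eq_true h7
      exact h8
    · obtain ⟨h4, h5⟩ := Bool.and_eq_true_iff.mp h3
      obtain ⟨h6, h7⟩ := Bool.and_eq_true_iff.mp h5
      rw [h.s_wa h4, (h.s_KN h6).1]
      have h8 := of_decide_eq_true h7
      exact h8
    · obtain ⟨h4, h5⟩ := Bool.and_eq_true_iff.mp h3
      obtain ⟨h6, h7⟩ := Bool.and_eq_true_iff.mp h5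
      rw [h.s_wb h4, (h.s_KN h6).1]
      have h8 := of_decide_eq_true h7
      exact h8
    · obtain ⟨h4, h5⟩ := Bool.and_eq_true_iff.mp h3
      obtain ⟨h6, h7⟩ := Bool.and_eq_true_iff.mp h5
      rw [h.s_wb h4, (h.s_KN h6).1]
      have h8 := of_decide_eq_true h7
      exact h8

theorem Dat.OK.chk_sound {A : Dat} (h : A.OK) {m : ℕ} (hm : A.chk m = true) :
    ∀ i, i < A.T + A.P → (A.P ∣ A.b * m → i < A.D) →
      ∃ j, j < A.g * m ∧ Mis (A.σ (i + j)) (A.σ (i + j + A.b * m)) := by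
  intro i hi hiD
  unfold Dat.chk at hm
  have hlim : i < sel (Nat.beq (Nat.mod (Nat.mul A.b m) A.P) 0) A.D (Nat.add A.T A.P) := by
    rcases hc : Nat.beq (Nat.mod (Nat.mul A.b m) A.P) 0 with _ | _
    · exact hi
    · exact hiD (Nat.dvd_of_mod_eq_zero (beq_eq hc))
  have h1 := cover_sound hm hlim
  obtain ⟨j, hj, h2⟩ := spr_sound _ _ _ _ h1
  exact ⟨j, hj, h.mism_tb h2⟩

theorem chkR_succ (A : Dat) (lo cnt : ℕ) :
    A.chkR lo (cnt + 1) = Bool.rec (motive := fun _ => Bool) false (A.chkR lo cnt) (A.chk (Nat.add lo cnt)) := rfl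

theorem chkR_sound (A : Dat) (lo : ℕ) : ∀ cnt, A.chkR lo cnt = true → ∀ m, lo ≤ m → m < lo + cnt → A.chk m = true := by
  intro cnt
  induction cnt with
  | zero => intro _ m h1 h2; omega
  | succ cnt ih =>
    intro h m h1 h2
    rw [chkR_succ] at h
    rcases hc : A.chk (Nat.add lo cnt) with _ | _
    · rw [hc] at h; simp at h
    · rw [hc] at h
      by_cases hm : m = lo + cnt
      · subst hm; exact hc
      · exact ih h m h1 (by omega)

theorem Dat.OK.Em_compl {A : Dat} (h : A.OK) {c n : ℕ} (hn : n < A.R) (hm : ¬ Mis (.kn c) (A.σ n)) :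
    (A.Em c).testBit n = true := by
  unfold Dat.Em
  rw [tb_lor, tb_lor, A.un_tb, tb_sel, tb_sel]
  rcases h.cases hn with ⟨h1, h2⟩ | ⟨h1, h2⟩ | ⟨h1, h2⟩ <;> rw [h1] at hm
  · have h3 : c = A.letter n := by simpa [Mis] using hm
    rw [h2, ← h3]
    have : Nat.beq c c = true := Nat.beq_refl c
    rw [this]; simp
  · have h3 : A.dA ≤ c := by simpa [Mis] using hm
    have h4 : Nat.ble A.dA c = true := Nat.ble_eq_true_of_le h3
    rw [h4]
    simp only [cond_true]
    rw [h2]; simp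
  · have h3 : A.dB ≤ c := by simpa [Mis] using hm
    have h4 : Nat.ble A.dB c = true := Nat.ble_eq_true_of_le h3
    rw [h4]
    simp only [cond_true]
    rw [h2]; simp

theorem cand_cons (A : Dat) (Q x : ℕ) (J : List ℕ) :
    A.cand Q (x :: J) = Nat.land (A.cand Q J) (Nat.shiftRight (A.Em (Nat.mod x 8)) (Nat.div x 8)) := rfl

theorem cand_sound (A : Dat) (Q q0 : ℕ) (hQ : Q.testBit q0 = true) : ∀ J : List ℕ,
    (∀ x ∈ J, (A.Em (x % 8)).testBit (x / 8 + q0) = true) → (A.cand Q J).testBit q0 = true := by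
  intro J
  induction J with
  | nil => intro _; exact hQ
  | cons x J ih =>
    intro hx
    rw [cand_cons, tb_land, tb_shr]
    rw [ih (fun y hy => hx y (List.mem_cons_of_mem _ hy))]
    have := hx x List.mem_cons_self
    change (true && (A.Em (x % 8)).testBit (x / 8 + q0)) = true
    rw [this]; rfl

theorem here_cons (A : Dat) (p lim x : ℕ) (J : List ℕ) :
    A.here p lim (x :: J) = Bool.rec (motive := fun _ => Bool) false (Bool.rec (motive := fun _ => Bool) false (A.here p lim J)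
      (Nat.ble (Nat.succ (Nat.add p (Nat.div x 8))) lim))
      (Nat.beq (Nat.mod (Nat.shiftRight (A.un (fun y => Nat.beq y (Nat.mod x 8))) (Nat.add p (Nat.div x 8))) 2) 1) := rfl

theorem here_sound {A : Dat} (h : A.OK) (p lim : ℕ) : ∀ J : List ℕ, A.here p lim J = true →
    ∀ x ∈ J, A.σ (p + x / 8) = .kn (x % 8) ∧ p + x / 8 < lim := by
  intro J
  induction J with
  | nil => intro _ x hx; simp at hx
  | cons y J ih =>
    intro hh
    rw [here_cons, mod2_tb] at hh
    rcases h1 : (A.un (fun z => Nat.beq z (Nat.mod y 8))).testBit (Nat.add p (Nat.div y 8)) with _ | _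
    · rw [h1] at hh; simp at hh
    · rw [h1] at hh
      rcases h2 : Nat.ble (Nat.succ (Nat.add p (Nat.div y 8))) lim with _ | _
      · rw [h2] at hh; simp at hh
      · rw [h2] at hh
        intro x hx
        rcases List.mem_cons.mp hx with hx | hx
        · subst hx
          rw [A.un_tb] at h1
          obtain ⟨h3, h4⟩ := Bool.and_eq_true_iff.mp h1
          refine ⟨?_, Nat.le_of_ble_eq_true h2⟩
          have h5 := (h.s_KN h3).1
          have h6 := beq_eq h4
          change A.σ (p + x / 8) = .kn (A.letter (p + x / 8)) at h5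
          change A.letter (p + x / 8) = x % 8 at h6
          rw [h5, h6]
        · exact ih hh x hx

/-- reduction of positions -/
theorem Dat.OK.reduce {A : Dat} (h : A.OK) (i : ℕ) :
    ∃ i0, i0 < A.T + A.P ∧ (i < A.T → i0 = i) ∧ (A.T ≤ i → A.T ≤ i0) ∧ (∃ c, i = i0 + A.P * c) ∧
      ∀ j, A.σ (i + j) = A.σ (i0 + j) := by
  have hP := h.hP
  have hmul : ∀ c n, A.T ≤ n → A.σ (n + A.P * c) = A.σ n := by
    intro c
    induction c with
    | zero => intro n _; simp
    | succ c ih =>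
      intro n hn
      have : n + A.P * (c + 1) = (n + A.P * c) + A.P := by ring
      rw [this, h.σ_per (by omega), ih n hn]
  by_cases hi : i < A.T + A.P
  · exact ⟨i, hi, fun _ => rfl, fun h => h, ⟨0, by simp⟩, fun _ => rfl⟩
  · have e1 : i = A.T + (i - A.T) % A.P + A.P * ((i - A.T) / A.P) := by
      have := Nat.mod_add_div (i - A.T) A.P
      omega
    refine ⟨A.T + (i - A.T) % A.P, ?_, ?_, ?_, ⟨(i - A.T) / A.P, e1⟩, ?_⟩
    · have := Nat.mod_lt (i - A.T) hP; omega
    · intro hh; omega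
    · intro _; omega
    · intro j
      have : i + j = (A.T + (i - A.T) % A.P + j) + A.P * ((i - A.T) / A.P) := by omega
      rw [this, hmul _ _ (by omega)]

theorem Dat.OK.cand_pos {A : Dat} (h : A.OK) {p lim : ℕ} {J : List ℕ} (hh : A.here p lim J = true)
    {q0 : ℕ} (hq0 : q0 < A.T + A.P) (hR : ∀ x ∈ J, q0 + x / 8 < A.R)
    (hm : ∀ x ∈ J, ¬ Mis (A.σ (p + x / 8)) (A.σ (q0 + x / 8))) :
    (A.cand (ones (Nat.add A.T A.P)) J).testBit q0 = true := by
  apply cand_sound
  · rw [tb_ones]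
    exact decide_eq_true hq0
  · intro x hx
    have h1 := here_sound h p lim J hh x hx
    have h2 := hm x hx
    rw [h1.1] at h2
    rw [show x / 8 + q0 = q0 + x / 8 by ring]
    exact h.Em_compl (hR x hx) h2

theorem Dat.OK.anc_sound {A : Dat} (h : A.OK) {M p z lim Lb : ℕ} {J : List ℕ}
    (ha : A.anc M p z lim J = true) (hLb : ∀ x ∈ J, x / 8 < Lb) (hLR : A.T + A.P + Lb ≤ A.R)
    {δ : ℕ} (hδ : A.b * M ≤ δ)
    (hm : ∀ x ∈ J, ¬ Mis (A.σ (p + x / 8)) (A.σ (p + x / 8 + δ))) : A.P ∣ δ := by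
  unfold Dat.anc at ha
  rcases h1 : A.here p lim J with _ | _
  · rw [h1] at ha; simp at ha
  rw [h1] at ha
  simp only at ha
  obtain ⟨q0, hq0, hqe, hqT, ⟨t, ht⟩, hs⟩ := h.reduce (p + δ)
  have hc : (A.cand (ones (Nat.add A.T A.P)) J).testBit q0 = true := by
    apply h.cand_pos h1 hq0
    · intro x hx; have := hLb x hx; omega
    · intro x hx
      have := hm x hx
      rw [show p + x / 8 + δ = p + δ + x / 8 by ring] at this
      rw [hs (x / 8)] at this
      exact this
  set Q := A.cand (ones (Nat.add A.T A.P)) J with hQ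
  have hlow : Nat.min (Nat.add p (Nat.mul A.b M)) A.T ≤ q0 := by
    change min (p + A.b * M) A.T ≤ q0
    by_cases hpT : p + δ < A.T
    · rw [hqe hpT]; omega
    · have := hqT (by omega); omega
  set low := Nat.min (Nat.add p (Nat.mul A.b M)) A.T with hlowdef
  unfold Dat.uniq at ha
  rcases h2 : Nat.ble (Nat.succ (Nat.add p (Nat.mul A.P z))) low with _ | _
  swap
  · rw [h2] at ha; simp at ha
  rw [h2] at ha
  simp only at ha
  have hbit : (Nat.shiftRight Q low).testBit (q0 - low) = true := by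
    rw [tb_shr, show low + (q0 - low) = q0 by omega]; exact hc
  rcases h3 : Nat.beq (Nat.shiftRight Q low) 0 with _ | _
  · rw [h3] at ha
    simp only at ha
    have h4 := beq_eq ha
    rw [h4, tb_pow] at hbit
    have h5 := of_decide_eq_true hbit
    have h6 : low ≤ p + A.P * z := by
      by_contra hcon
      push Not at hcon
      have : Nat.ble (Nat.succ (Nat.add p (Nat.mul A.P z))) low = true := Nat.ble_eq_true_of_le hcon
      rw [this] at h2; simp at h2
    change p + A.P * z - low = q0 - low at h5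
    have h7 : q0 = p + A.P * z := by omega
    have h8 : p + δ = p + A.P * z + A.P * t := by rw [ht, h7]
    exact ⟨z + t, by rw [Nat.mul_add]; omega⟩
  · have h4 := beq_eq h3
    rw [h4] at hbit
    simp at hbit

theorem ancs_cons (A : Dat) (M L hi lo : ℕ) (a : ℕ × ℕ × List ℕ) (l : List (ℕ × ℕ × List ℕ)) :
    A.ancs M L hi (a :: l) lo = Bool.rec (motive := fun _ => Bool) false (Bool.rec (motive := fun _ => Bool) false
      (A.ancs M L hi l (Nat.succ a.1)) (A.anc M a.1 a.2.1 (Nat.add lo L) a.2.2)) (Nat.ble lo a.1) := rfl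

theorem Dat.OK.ancs_sound {A : Dat} (h : A.OK) {M L hi : ℕ} (hLR : A.T + A.P + L ≤ A.R) :
    ∀ (l : List (ℕ × ℕ × List ℕ)) (lo : ℕ), A.ancs M L hi l lo = true → ∀ i, lo ≤ i → i < hi →
      ∀ δ, A.b * M ≤ δ → (∀ j, j < L → ¬ Mis (A.σ (i + j)) (A.σ (i + j + δ))) → A.P ∣ δ := by
  intro l
  induction l with
  | nil =>
    intro lo hl i h1 h2
    have : hi ≤ lo := Nat.le_of_ble_eq_true hl
    omega
  | cons a l ih =>
    intro lo hl i h1 h2 δ hδ hm
    rw [ancs_cons] at hl
    rcases h3 : Nat.ble lo a.1 with _ | _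
    · rw [h3] at hl; simp at hl
    rw [h3] at hl
    simp only at hl
    rcases h4 : A.anc M a.1 a.2.1 (Nat.add lo L) a.2.2 with _ | _
    · rw [h4] at hl; simp at hl
    rw [h4] at hl
    simp only at hl
    have h5 : lo ≤ a.1 := Nat.le_of_ble_eq_true h3
    by_cases hi2 : i ≤ a.1
    · have hh : A.here a.1 (Nat.add lo L) a.2.2 = true := by
        unfold Dat.anc at h4
        rcases h6 : A.here a.1 (Nat.add lo L) a.2.2 with _ | _
        · rw [h6] at h4; simp at h4
        · rfl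
      apply h.anc_sound h4 (Lb := L) _ hLR hδ
      · intro x hx
        have h7 := (here_sound h _ _ _ hh x hx).2
        change a.1 + x / 8 < lo + L at h7
        have h8 := hm (a.1 + x / 8 - i) (by omega)
        rw [show i + (a.1 + x / 8 - i) = a.1 + x / 8 by omega] at h8
        exact h8
      · intro x hx
        have h7 := (here_sound h _ _ _ hh x hx).2
        change a.1 + x / 8 < lo + L at h7
        omega
    · exact ih _ hl i (by change a.1 + 1 ≤ i; omega) h2 δ hδ hm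

theorem Dat.SE_tb (A : Dat) (δ n : ℕ) : (A.SE δ).testBit n =
    (A.KN.testBit n && A.KN.testBit (n + δ) && decide (A.letter n = A.letter (n + δ))) := by
  unfold Dat.SE
  rw [tb_xor, tb_land, tb_land, tb_land, tb_shr, A.X_tb, show δ + n = n + δ by ring]
  by_cases hl : A.letter n = A.letter (n + δ)
  · cases A.KN.testBit n <;> cases A.KN.testBit (n + δ) <;> simp [hl]
  · cases A.KN.testBit n <;> cases A.KN.testBit (n + δ) <;> simp [hl]

theorem blx_cons (A : Dat) (r x m : ℕ) (W : List ℕ) :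
    A.blx r x (m :: W) = Nat.lor (A.blx r x W) (A.blm r x m) := rfl

theorem blx_sound (A : Dat) (r x n : ℕ) : ∀ W : List ℕ, (A.blx r x W).testBit n = true →
    ∃ m ∈ W, (A.blm r x m).testBit n = true := by
  intro W
  induction W with
  | nil =>
    intro h
    have : (0 : ℕ).testBit n = true := h
    simp at this
  | cons m W ih =>
    intro h
    rw [blx_cons, tb_lor] at h
    rcases Bool.or_eq_true_iff.mp h with h1 | h1
    · obtain ⟨m', hm', h2⟩ := ih h1
      exact ⟨m', List.mem_cons_of_mem _ hm', h2⟩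
    · exact ⟨m, List.mem_cons_self, h1⟩

theorem Dat.OK.blm_sound {A : Dat} (h : A.OK) {r x m n : ℕ} (hm : 1 ≤ m) (hb : (A.blm r x m).testBit n = true) :
    ∃ i, i + (A.b + A.g) * m = n + 1 ∧ r ≤ i ∧
    (∀ j, j + 1 < A.g * m → ∃ y, A.σ (i + j) = .kn y ∧ A.σ (i + j + A.b * m) = .kn y) ∧
    A.σ (i + A.g * m - 1) = .kn x := by
  unfold Dat.blm at hb
  rw [tb_shl] at hb
  obtain ⟨h1, h2⟩ := Bool.and_eq_true_iff.mp hb
  have h1 := of_decide_eq_true h1
  change n ≥ (A.b + A.g) * m - 1 at h1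
  rw [tb_shl, tb_shr] at h2
  obtain ⟨hr, h2⟩ := Bool.and_eq_true_iff.mp h2
  have hr := of_decide_eq_true hr
  change n - ((A.b + A.g) * m - 1) ≥ r at hr
  change (Nat.land _ _).testBit (r + (n - ((A.b + A.g) * m - 1) - r)) = true at h2
  rw [show r + (n - ((A.b + A.g) * m - 1) - r) = n - ((A.b + A.g) * m - 1) by omega] at h2
  rw [tb_land] at h2
  obtain ⟨h3, h4⟩ := Bool.and_eq_true_iff.mp h2
  have hab : 1 ≤ (A.b + A.g) * m := Nat.mul_pos (by have := h.hb; omega) hm
  have hgm : 1 ≤ A.g * m := Nat.mul_pos h.hg hm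
  refine ⟨n - ((A.b + A.g) * m - 1), by omega, hr, ?_, ?_⟩
  · intro j hj
    have h5 := sprA_sound _ _ _ _ _ h3 j (by change j < A.g * m - 1; omega)
    rw [A.SE_tb] at h5
    obtain ⟨h6, h7⟩ := Bool.and_eq_true_iff.mp h5
    obtain ⟨h8, h9⟩ := Bool.and_eq_true_iff.mp h6
    have h7 := of_decide_eq_true h7
    refine ⟨_, (h.s_KN h8).1, ?_⟩
    change A.KN.testBit (n - ((A.b + A.g) * m - 1) + j + A.b * m) = true at h9
    change A.letter _ = A.letter (n - ((A.b + A.g) * m - 1) + j + A.b * m) at h7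
    rw [(h.s_KN h9).1, h7]
  · rw [tb_shr, A.un_tb] at h4
    obtain ⟨h5, h6⟩ := Bool.and_eq_true_iff.mp h4
    change A.KN.testBit (A.g * m - 1 + (n - ((A.b + A.g) * m - 1))) = true at h5
    have h6 := beq_eq h6
    change A.letter (A.g * m - 1 + (n - ((A.b + A.g) * m - 1))) = x at h6
    have e : n - ((A.b + A.g) * m - 1) + A.g * m - 1 = A.g * m - 1 + (n - ((A.b + A.g) * m - 1)) := by omega
    rw [e, (h.s_KN h5).1, h6]

theorem ble_succ_true {x y : ℕ} (h : x < y) : Nat.ble (Nat.succ x) y = true := Nat.ble_eq_true_of_le h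

theorem Dat.OK.needx_tb {A : Dat} (h : A.OK) {x n : ℕ} (hn : n < A.R) (hx : x < (A.σ n).lo) :
    (A.needx x).testBit n = true := by
  unfold Dat.needx
  rw [tb_lor, tb_lor, A.un_tb, tb_sel, tb_sel]
  rcases h.cases hn with ⟨h1, h2⟩ | ⟨h1, h2⟩ | ⟨h1, h2⟩ <;> rw [h1] at hx
  · have hx : x < A.letter n := hx
    rw [ble_succ_true hx, h2]; simp
  · have hx : x < A.dA := hx
    rw [ble_succ_true hx]
    simp only [cond_true]
    rw [h2]; simp
  · have hx : x < A.dB := hx
    rw [ble_succ_true hx]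
    simp only [cond_true]
    rw [h2]; simp

theorem okx_sound {A : Dat} {lo hi r x n : ℕ} {W : List ℕ} (h : A.okx lo hi r W x = true) (hlo : lo ≤ n)
    (hn : n < hi) (hb : (A.needx x).testBit n = true) : (A.blx r x W).testBit n = true := by
  have h1 := beq_eq h
  have h2 : (Nat.land (A.blx r x W) (Nat.land (A.needx x) (Nat.shiftLeft (ones (Nat.sub hi lo)) lo))).testBit n =
      (Nat.land (A.needx x) (Nat.shiftLeft (ones (Nat.sub hi lo)) lo)).testBit n := by rw [h1]
  rw [tb_land, tb_land, tb_shl, tb_ones, hb] at h2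
  have h3 : n - lo < Nat.sub hi lo := by change n - lo < hi - lo; omega
  have h4 : n ≥ lo := hlo
  simpa only [h3, h4, decide_true, Bool.and_self, Bool.and_true, Bool.true_and] using h2

theorem lea_sound {A : Dat} (h : A.OK) {lo hi r : ℕ} {W : List ℕ} (hl : A.lea lo hi r W = true)
    {n x : ℕ} (hlo : lo ≤ n) (hn : n < hi) (hR : n < A.R) (hx : x < (A.σ n).lo) :
    ∃ m ∈ W, (A.blm r x m).testBit n = true := by
  have hneed := h.needx_tb hR hx
  have hx7 : x < 7 := by
    have hdA := h.hdA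
    have hdB := h.hdB
    rcases h.cases hR with ⟨h1, h2⟩ | ⟨h1, h2⟩ | ⟨h1, h2⟩ <;> rw [h1] at hx
    · have hx : x < A.letter n := hx
      have := A.letter_lt n
      omega
    · have hx : x < A.dA := hx
      omega
    · have hx : x < A.dB := hx
      omega
  have hok : A.okx lo hi r W x = true := by
    unfold Dat.lea at hl
    simp only [Bool.and_eq_true] at hl
    obtain ⟨⟨⟨⟨⟨⟨h0, h1⟩, h2⟩, h3⟩, h4⟩, h5⟩, h6⟩ := hl
    interval_cases x <;> assumption
  exact blx_sound A r x n W (okx_sound hok hlo hn hneed)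

theorem Dat.OK.finB {A : Dat} (h : A.OK) {N2 N0 Ns mx r : ℕ} {W : List ℕ} (h3 : A.numOK3 N2 Ns mx = true)
    (hW : bndW mx W = true) (h0s : N0 ≤ Ns) (hl1 : A.lea N0 Ns 0 W = true)
    (hl2 : A.lea Ns (N2 + A.P) r W = true) :
    FinB A.σ A.b A.g A.P A.T N2 N0 Ns r := by
  unfold Dat.numOK3 at h3
  simp only [Bool.and_eq_true] at h3
  obtain ⟨⟨⟨n1, n2⟩, n3⟩, n4⟩ := h3
  have n1 : N2 + A.P ≤ A.R := Nat.le_of_ble_eq_true n1
  have n2 : A.T + (A.b + A.g) * mx ≤ N2 + 1 := Nat.le_of_ble_eq_true n2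
  have n3 : A.T ≤ N2 := Nat.le_of_ble_eq_true n3
  have n4 : Ns ≤ N2 := Nat.le_of_ble_eq_true n4
  refine ⟨h.hb, h.hg, n3, n4, h0s, ?_⟩
  intro n hn0 hn c hc
  by_cases hns : Ns ≤ n
  · obtain ⟨m, hmW, hbm⟩ := lea_sound h hl2 hns hn (by omega) hc
    obtain ⟨hm1, hm2⟩ := bndW_sound mx W hW m hmW
    obtain ⟨i, hi, hr, hj, hl'⟩ := h.blm_sound hm1 hbm
    refine ⟨m, i, hm1, hi, ?_, fun _ => hr, hj, hl'⟩
    intro hN
    have : (A.b + A.g) * m ≤ (A.b + A.g) * mx := Nat.mul_le_mul_left _ hm2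
    omega
  · obtain ⟨m, hmW, hbm⟩ := lea_sound h hl1 hn0 (by omega) (by omega) hc
    obtain ⟨hm1, hm2⟩ := bndW_sound mx W hW m hmW
    obtain ⟨i, hi, hr, hj, hl'⟩ := h.blm_sound hm1 hbm
    exact ⟨m, i, hm1, hi, fun hN => by omega, fun hh => absurd hh hns, hj, hl'⟩

/-- the avoidance part -/
theorem Dat.OK.fin1 {A : Dat} (h : A.OK) {M L J0 : ℕ} (h2 : A.numOK2 M L J0 = true)
    {l : List (ℕ × ℕ × List ℕ)} (hdir : ∀ m, 0 < m → m < M → A.chk m = true)
    (hanc : A.ancs M L (A.T + A.P) l 0 = true) (hdev : A.devchk L J0 = true) :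
    Fin1 A.σ A.b A.g A.P A.D A.T M L := by
  unfold Dat.numOK2 at h2
  simp only [Bool.and_eq_true] at h2
  obtain ⟨⟨⟨⟨n2, n3⟩, n4⟩, n5⟩, n9⟩ := h2
  have n2 : L ≤ A.g * M := Nat.le_of_ble_eq_true n2
  have n3 : 1 ≤ M := Nat.le_of_ble_eq_true n3
  have n4 : A.T ≤ A.P * J0 := Nat.le_of_ble_eq_true n4
  have n5 : A.T + (A.P + L) ≤ A.R := Nat.le_of_ble_eq_true n5
  refine ⟨h.hb, h.hg, n2, h.hD, ?_, ?_, ?_⟩
  · intro m hm hmM i hi hiD
    exact h.chk_sound (hdir m hm hmM) i hi hiD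
  · intro i hi δ _ hδ hm
    exact h.ancs_sound (by omega) l 0 hanc i (Nat.zero_le _) hi δ hδ hm
  · intro m hmM hm hK i hi
    have hTbm : A.T ≤ A.b * m := by
      rcases Bool.or_eq_true_iff.mp n9 with h9 | h9
      · have h9 : A.T ≤ A.b * M := Nat.le_of_ble_eq_true h9
        exact le_trans h9 (Nat.mul_le_mul_left _ hmM)
      · have h9 : A.T ≤ A.b * (A.P / Nat.gcd A.P A.b) := Nat.le_of_ble_eq_true h9
        refine le_trans h9 (Nat.mul_le_mul_left _ (Nat.le_of_dvd hm ?_))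
        have hgpos : 0 < Nat.gcd A.P A.b := Nat.gcd_pos_of_pos_left _ h.hP
        have h3 : Nat.Coprime (A.P / Nat.gcd A.P A.b) (A.b / Nat.gcd A.P A.b) :=
          Nat.coprime_div_gcd_div_gcd hgpos
        apply h3.dvd_of_dvd_mul_left
        obtain ⟨K', hK'⟩ := Nat.gcd_dvd_left A.P A.b
        obtain ⟨b', hb'⟩ := Nat.gcd_dvd_right A.P A.b
        have e1 : A.P / Nat.gcd A.P A.b = K' := Nat.div_eq_of_eq_mul_right hgpos hK'
        have e2 : A.b / Nat.gcd A.P A.b = b' := Nat.div_eq_of_eq_mul_right hgpos hb'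
        rw [e1, e2]
        obtain ⟨c, hc⟩ := hK
        refine ⟨c, ?_⟩
        apply Nat.eq_of_mul_eq_mul_left hgpos
        calc Nat.gcd A.P A.b * (b' * m) = (Nat.gcd A.P A.b * b') * m := by ring
          _ = A.b * m := by rw [← hb']
          _ = A.P * c := hc
          _ = Nat.gcd A.P A.b * K' * c := by rw [← hK']
          _ = Nat.gcd A.P A.b * (K' * c) := by ring
    have h1 := cover_sound hdev (i := i) hi
    obtain ⟨j, hj, h2⟩ := spr_sound _ _ _ _ h1
    have h3 := h.mism_tb h2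
    change Mis (A.σ (i + j)) (A.σ (i + j + A.P * J0)) at h3
    refine ⟨j, lt_of_lt_of_le hj (le_trans n2 (Nat.mul_le_mul_left _ hmM)), ?_⟩
    have hmul : ∀ c n, A.T ≤ n → A.σ (n + A.P * c) = A.σ n := by
      intro c
      induction c with
      | zero => intro n _; simp
      | succ c ih =>
        intro n hn
        have : n + A.P * (c + 1) = (n + A.P * c) + A.P := by ring
        rw [this, h.σ_per (by omega), ih n hn]
    have e : A.σ (i + j + A.b * m) = A.σ (i + j + A.P * J0) := by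
      obtain ⟨c, hc⟩ := hK
      rw [hc]
      have key : ∀ c, A.T ≤ A.P * c → A.T ≤ A.P * J0 →
          A.σ (i + j + A.P * c) = A.σ (i + j + A.P * J0) := by
        intro c hc1 hc2
        rcases Nat.le_total c J0 with hh | hh
        · obtain ⟨u, rfl⟩ := Nat.exists_eq_add_of_le hh
          rw [show i + j + A.P * (c + u) = (i + j + A.P * c) + A.P * u by ring]
          rw [hmul u (i + j + A.P * c) (by omega)]
        · obtain ⟨u, rfl⟩ := Nat.exists_eq_add_of_le hh
          rw [show i + j + A.P * (J0 + u) = (i + j + A.P * J0) + A.P * u by ring]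
          rw [hmul u (i + j + A.P * J0) (by omega)]
      exact key c (by rw [← hc]; exact hTbm) n4
    rw [e]
    exact h3

/-- P divides b m implies P / gcd divides m -/
theorem Dat.OK.desc {A : Dat} (h : A.OK) {m : ℕ} (hm : A.P ∣ A.b * m) : A.P / Nat.gcd A.P A.b ∣ m := by
  have hgpos : 0 < Nat.gcd A.P A.b := Nat.gcd_pos_of_pos_left _ h.hP
  have h3 : Nat.Coprime (A.P / Nat.gcd A.P A.b) (A.b / Nat.gcd A.P A.b) :=
    Nat.coprime_div_gcd_div_gcd hgpos
  apply h3.dvd_of_dvd_mul_left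
  obtain ⟨K', hK'⟩ := Nat.gcd_dvd_left A.P A.b
  obtain ⟨b', hb'⟩ := Nat.gcd_dvd_right A.P A.b
  have e1 : A.P / Nat.gcd A.P A.b = K' := Nat.div_eq_of_eq_mul_right hgpos hK'
  have e2 : A.b / Nat.gcd A.P A.b = b' := Nat.div_eq_of_eq_mul_right hgpos hb'
  rw [e1, e2]
  obtain ⟨c, hc⟩ := hm
  refine ⟨c, ?_⟩
  apply Nat.eq_of_mul_eq_mul_left hgpos
  calc Nat.gcd A.P A.b * (b' * m) = (Nat.gcd A.P A.b * b') * m := by ring
    _ = A.b * m := by rw [← hb']
    _ = A.P * c := hc
    _ = Nat.gcd A.P A.b * K' * c := by rw [← hK']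
    _ = Nat.gcd A.P A.b * (K' * c) := by ring

/-- the plane W has exactly the positions T + off modulo P -/
theorem one_sound {A : Dat} {W off : ℕ} (h : A.one W off = true) :
    (∀ n, n < A.T → W.testBit n = false) ∧ ∀ r, r < A.P → (W.testBit (A.T + r) = true ↔ r = off) := by
  unfold Dat.one at h
  simp only [Bool.and_eq_true] at h
  obtain ⟨h1, h2⟩ := h
  constructor
  · intro n hn
    have h3 : (Nat.mod W (Nat.pow 2 A.T)).testBit n = (0 : ℕ).testBit n := by rw [beq_eq h1]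
    rw [tb_mod] at h3
    simpa [hn] using h3
  · intro r hr
    have h3 : (Nat.mod (Nat.shiftRight W A.T) (Nat.pow 2 A.P)).testBit r = (Nat.pow 2 off).testBit r := by
      rw [beq_eq h2]
    rw [tb_mod, tb_shr, tb_pow] at h3
    simp only [hr, decide_true, Bool.true_and] at h3
    rw [h3, decide_eq_true_iff]
    exact eq_comm

theorem perC_sound {A : Dat} {E VM : ℕ} (h : A.perC E VM = true) {n : ℕ} (hE : E ≤ n) (hT : n < A.T)
    (hV : VM.testBit n = false) : A.letter n = A.letter (n + A.P) := by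
  have h1 := beq_eq h
  have h2 : (Nat.land VM (Nat.land (A.X A.P) (Nat.shiftLeft (ones (Nat.sub A.T E)) E))).testBit n =
      (Nat.land (A.X A.P) (Nat.shiftLeft (ones (Nat.sub A.T E)) E)).testBit n := by rw [h1]
  rw [tb_land, tb_land, tb_shl, tb_ones, hV, A.X_tb] at h2
  have h3 : n - E < Nat.sub A.T E := by change n - E < A.T - E; omega
  have h4 : n ≥ E := hE
  simp only [h3, h4, decide_true, Bool.and_self, Bool.and_true, Bool.false_and] at h2
  by_contra hcon
  rw [decide_eq_true hcon] at h2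
  simp at h2

end Pool.Agent.H70.AB.G
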